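import Mathlib

set_option autoImplicit false

namespace Pool.Agent.Results.MP_c566a2_co.Paths

open SimpleGraph

/-- For every non-boring walk `w 0, ..., w (2l-1)` and every choice of colours from the sets,
the colour sequence is not a repetition. -/
def WalkNonrep {V : Type} (G : SimpleGraph V) {q : ℕ} (c : V → Finset (Fin q)) : Prop :=
  ∀ l : ℕ, 1 ≤ l → ∀ w : ℕ → V, (∀ i, i + 1 < 2 * l → G.Adj (w i) (w (i + 1))) →
    (¬ ∀ i < l, w i = w (l + i)) → ∀ col : ℕ → Fin q, (∀ i < 2 * l, col i ∈ c (w i)) →
      ¬ ∀ i < l, col i = col (l + i)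

/-- The ratios `q / p` of `p`-tuple walk-nonrepetitive `q`-colourings. -/
def Ratios {V : Type} (G : SimpleGraph V) : Set ℝ :=
  {r | ∃ p q : ℕ, 1 ≤ p ∧ p < q ∧
    (∃ c : V → Finset (Fin q), (∀ v, (c v).card = p) ∧ WalkNonrep G c) ∧ r = (q : ℝ) / p}

/-- The fractional walk-nonrepetitive chromatic number. -/
noncomputable def piF {V : Type} (G : SimpleGraph V) : ℝ := sInf (Ratios G)

/-- The Thue-Morse sequence. -/
def tm (n : ℕ) : Bool := if h : n = 0 then false else xor (n % 2 == 1) (tm (n / 2))
decreasing_by omega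

lemma tm_even (n : ℕ) : tm (2 * n) = tm n := by
  rcases Nat.eq_zero_or_pos n with rfl | h
  · rfl
  · rw [tm, dif_neg (by omega)]
    have : 2 * n / 2 = n := by omega
    simp [this]

lemma tm_odd (n : ℕ) : tm (2 * n + 1) = !tm n := by
  rw [tm, dif_neg (by omega)]
  have : (2 * n + 1) / 2 = n := by omega
  simp [this]

lemma tm_ne (n : ℕ) : tm (2 * n) ≠ tm (2 * n + 1) := by
  rw [tm_even, tm_odd]; cases tm n <;> simp

lemma tm_three (i : ℕ) (h1 : tm i = tm (i + 1)) (h2 : tm (i + 1) = tm (i + 2)) : False := by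
  rcases Nat.even_or_odd' i with ⟨j, rfl | rfl⟩
  · exact tm_ne j h1
  · exact tm_ne (j + 1) h2

lemma overlap (p : ℕ) : ∀ i, 0 < p → ¬ ∀ k ≤ p, tm (i + k) = tm (i + k + p) := by
  induction p using Nat.strong_induction_on with
  | _ p ih =>
    intro i hp h
    rcases Nat.even_or_odd' p with ⟨q, rfl | rfl⟩
    · refine ih q (by omega) (i / 2) (by omega) fun k hk => ?_
      have := h (2 * k) (by omega)
      rcases Nat.even_or_odd' i with ⟨j, rfl | rfl⟩
      · rw [show 2 * j + 2 * k = 2 * (j + k) by ring,
          show 2 * (j + k) + 2 * q = 2 * (j + k + q) by ring, tm_even, tm_even] at this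
        rwa [show 2 * j / 2 = j by omega]
      · rw [show 2 * j + 1 + 2 * k = 2 * (j + k) + 1 by ring,
          show 2 * (j + k) + 1 + 2 * q = 2 * (j + k + q) + 1 by ring, tm_odd, tm_odd] at this
        rw [show (2 * j + 1) / 2 = j by omega]
        exact Bool.not_inj this
    · rcases Nat.eq_zero_or_pos q with rfl | hq
      · exact tm_three i (h 0 (by omega)) (h 1 (by omega))
      · have key : ∀ j, i ≤ 2 * j + 1 → 2 * j + 1 < i + 2 * (2 * q + 1) → tm j = tm (j + 1) := by
          intro j h1 h2
          have e : tm (2 * j + 1) ≠ tm (2 * (j + 1)) := by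
            by_cases h3 : 2 * j + 1 < i + (2 * q + 1)
            · have a1 := h (2 * j + 1 - i) (by omega)
              have a2 := h (2 * j + 2 - i) (by omega)
              rw [show i + (2 * j + 1 - i) = 2 * j + 1 by omega,
                show 2 * j + 1 + (2 * q + 1) = 2 * (j + q + 1) by ring] at a1
              rw [show i + (2 * j + 2 - i) = 2 * (j + 1) by omega,
                show 2 * (j + 1) + (2 * q + 1) = 2 * (j + q + 1) + 1 by ring] at a2
              rw [a1, a2]; exact tm_ne _
            · have a1 := h (2 * (j - q) - i) (by omega)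
              have a2 := h (2 * (j - q) + 1 - i) (by omega)
              rw [show i + (2 * (j - q) - i) = 2 * (j - q) by omega,
                show 2 * (j - q) + (2 * q + 1) = 2 * j + 1 by omega] at a1
              rw [show i + (2 * (j - q) + 1 - i) = 2 * (j - q) + 1 by omega,
                show 2 * (j - q) + 1 + (2 * q + 1) = 2 * (j + 1) by omega] at a2
              rw [← a1, ← a2]; exact tm_ne _
          rw [tm_odd, tm_even] at e
          revert e; cases tm j <;> cases tm (j + 1) <;> simp
        exact tm_three (i / 2) (key _ (by omega) (by omega)) (key _ (by omega) (by omega))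

/-- A ternary square-free word. -/
def dd (n : ℕ) : Fin 4 := if tm n = tm (n + 1) then 0 else if tm n then 1 else 2

lemma dd_ne (n : ℕ) : dd n ≠ 3 := by
  unfold dd; split_ifs <;> decide

lemma dd_sq (i p : ℕ) (hp : 0 < p) : ¬ ∀ k < p, dd (i + k) = dd (i + k + p) := by
  intro h
  by_cases h0 : tm i = tm (i + p)
  · refine overlap p i hp fun k hk => ?_
    induction k with
    | zero => exact h0
    | succ k ih =>
      have a := h k (by omega)
      have b := ih (by omega)
      rw [show i + (k + 1) + p = i + k + p + 1 by ring, ← add_assoc]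
      unfold dd at a
      revert a b
      cases tm (i + k) <;> cases tm (i + k + 1) <;> cases tm (i + k + p) <;>
        cases tm (i + k + p + 1) <;> decide
  · have : ∀ k ≤ p, tm (i + k) = tm i ∧ tm (i + k + p) = tm (i + p) := by
      intro k hk
      induction k with
      | zero => exact ⟨rfl, rfl⟩
      | succ k ih =>
        have a := h k (by omega)
        have b := ih (by omega)
        rw [show i + (k + 1) + p = i + k + p + 1 by ring, ← add_assoc]
        unfold dd at a
        revert a b h0
        cases tm (i + k) <;> cases tm (i + k + 1) <;> cases tm (i + k + p) <;>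
          cases tm (i + k + p + 1) <;> cases tm i <;> cases tm (i + p) <;> decide
    exact h0 (this p le_rfl).1.symm

/-- A square-free word on four letters without factors `x y x`. -/
def uu (n : ℕ) : Fin 4 := if n % 3 = 2 then 3 else dd (2 * (n / 3) + n % 3)

lemma uu_two (s : ℕ) : uu s ≠ uu (s + 2) := by
  unfold uu
  split_ifs with h1 h2 h2
  · omega
  · exact (dd_ne _).symm
  · exact dd_ne _
  · intro h
    refine dd_sq (2 * (s / 3) + s % 3) 1 one_pos fun k hk => ?_
    obtain rfl : k = 0 := by omega
    rw [add_zero, h]; congr 1; omega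

lemma uu_sq (s P : ℕ) (hP : 0 < P) : ¬ ∀ k < P, uu (s + k) = uu (s + k + P) := by
  intro h
  by_cases h3 : P % 3 = 0
  · refine dd_sq (2 * (s / 3) + s % 3) (2 * (P / 3)) (by omega) fun k hk => ?_
    set j := 2 * (s / 3) + s % 3 + k with hj
    have := h (3 * (j / 2) + j % 2 - s) (by omega)
    unfold uu at this
    rw [if_neg (by omega), if_neg (by omega)] at this
    convert this using 2 <;> omega
  · by_cases h2 : P = 2
    · subst h2; exact uu_two s (h 0 (by omega))
    by_cases h1 : P = 1 ∧ s % 3 = 0
    · have := h 0 hP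
      unfold uu at this
      rw [if_neg (by omega), if_neg (by omega)] at this
      refine dd_sq (2 * (s / 3)) 1 one_pos fun k hk => ?_
      convert this using 2 <;> omega
    by_cases h4 : P = 1 ∧ s % 3 = 1
    · have := h 0 hP
      unfold uu at this
      rw [if_neg (by omega), if_pos (by omega)] at this
      exact dd_ne _ this
    · have := h (2 - s % 3) (by omega)
      unfold uu at this
      rw [if_pos (by omega), if_neg (by omega)] at this
      exact dd_ne _ this.symm

lemma ivt (f : ℕ → ℤ) (v : ℤ) : ∀ m, (∀ i < m, f (i + 1) ≤ f i + 1) → f 0 ≤ v → v ≤ f m →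
    ∃ i ≤ m, f i = v := by
  intro m
  induction m with
  | zero => intro _ h1 h2; exact ⟨0, le_rfl, le_antisymm h1 h2⟩
  | succ m ih =>
    intro h h1 h2
    by_cases h3 : v ≤ f m
    · obtain ⟨i, hi, e⟩ := ih (fun i hi => h i (by omega)) h1 h3
      exact ⟨i, by omega, e⟩
    · have := h m (by omega)
      exact ⟨m + 1, le_rfl, by omega⟩

lemma core {κ : Type} (n : ℕ) (U : ℕ → κ)
    (H1 : ∀ s d, 0 < d → s + 2 * d ≤ n → ¬ ∀ k < d, U (s + k) = U (s + k + d))
    (H2 : ∀ s, s + 2 < n → U s ≠ U (s + 2)) (m : ℕ) (a b : ℕ → ℕ)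
    (ha : ∀ i, a i < n) (hb : ∀ i, b i < n)
    (sa : ∀ i < m, a i + 1 = a (i + 1) ∨ a (i + 1) + 1 = a i)
    (sb : ∀ i < m, b i + 1 = b (i + 1) ∨ b (i + 1) + 1 = b i)
    (j : a m + 1 = b 0 ∨ b 0 + 1 = a m) (hU : ∀ i ≤ m, U (a i) = U (b i)) :
    ∀ i ≤ m, a i = b i := by
  have far : ∀ x y, x < n → y < n → U x = U y → x = y ∨ x + 3 ≤ y ∨ y + 3 ≤ x := by
    have aux : ∀ x y, y < n → U x = U y → y ≠ x + 1 ∧ y ≠ x + 2 := by
      intro x y hy h
      constructor
      · rintro rfl
        refine H1 x 1 one_pos (by omega) fun k hk => ?_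
        obtain rfl : k = 0 := by omega
        exact h
      · rintro rfl
        exact H2 x hy h
    intro x y hx hy h
    have := aux x y hy h
    have := aux y x hx h.symm
    omega
  have F := fun i hi => far _ _ (ha i) (hb i) (hU i hi)
  have sign : ∀ i ≤ m, (a 0 = b 0 → a i = b i) ∧ (a 0 < b 0 → a i + 3 ≤ b i) ∧
      (b 0 < a 0 → b i + 3 ≤ a i) := by
    intro i hi
    induction i with
    | zero => have := F 0 hi; omega
    | succ i ih =>
      have := ih (by omega)
      have := F (i + 1) hi
      have := sa i (by omega)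
      have := sb i (by omega)
      omega
  by_cases h0 : a 0 = b 0
  · exact fun i hi => (sign i hi).1 h0
  exfalso
  have typ : ∀ i, i + 1 ≤ m → (a (i + 1) + b i = a i + b (i + 1) ↔ a 1 + b 0 = a 0 + b 1) := by
    intro i hi
    induction i with
    | zero => rfl
    | succ i ih =>
      rw [← ih (by omega)]
      have e1 : a (i + 1 + 1) = a i → b (i + 1 + 1) = b i ∨ b (i + 1 + 1) + 3 ≤ b i ∨
          b i + 3 ≤ b (i + 1 + 1) := fun e => far _ _ (hb _) (hb _)
        (by rw [← hU _ hi, ← hU i (by omega), e])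
      have e2 : b (i + 1 + 1) = b i → a (i + 1 + 1) = a i ∨ a (i + 1 + 1) + 3 ≤ a i ∨
          a i + 3 ≤ a (i + 1 + 1) := fun e => far _ _ (ha _) (ha _)
        (by rw [hU _ hi, hU i (by omega), e])
      have := sa i (by omega)
      have := sb i (by omega)
      have := sa (i + 1) (by omega)
      have := sb (i + 1) (by omega)
      omega
  by_cases ht : a 1 + b 0 = a 0 + b 1
  · have par : ∀ i ≤ m, a i + b 0 = a 0 + b i := by
      intro i hi
      induction i with
      | zero => rfl
      | succ i ih =>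
        have := ih (by omega)
        have := (typ i hi).2 ht
        omega
    have pm := par m le_rfl
    have bm := hb m
    rcases lt_or_gt_of_ne h0 with h | h
    · refine H1 (a 0) (b 0 - a 0) (by omega) (by omega) fun k hk => ?_
      obtain ⟨i, hi, e⟩ := ivt (fun i => (a i : ℤ)) (a 0 + k) m
        (fun i hi => by have := sa i hi; omega) (by omega) (by omega)
      have := par i hi
      rw [show a 0 + k = a i by omega, show a i + (b 0 - a 0) = b i by omega]
      exact hU i hi
    · have a0 := ha 0
      refine H1 (a 0 + 1 - 2 * (a 0 - b 0)) (a 0 - b 0) (by omega) (by omega) fun k hk => ?_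
      obtain ⟨i, hi, e⟩ := ivt (fun i => -(a i : ℤ)) (-(b 0 + 1 + k)) m
        (fun i hi => by have := sa i hi; omega) (by omega) (by omega)
      have := par i hi
      rw [show a 0 + 1 - 2 * (a 0 - b 0) + k = b i by omega,
        show b i + (a 0 - b 0) = a i by omega]
      exact (hU i hi).symm
  · have anti : ∀ i ≤ m, a i + b i = a 0 + b 0 := by
      intro i hi
      induction i with
      | zero => rfl
      | succ i ih =>
        have := ih (by omega)
        have := (typ i hi).not.2 ht
        have := sa i (by omega)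
        have := sb i (by omega)
        omega
    have := anti m le_rfl
    have := sign m le_rfl
    have := sign 0 (Nat.zero_le _)
    omega

lemma upper (n q : ℕ) (hq : 1 < q) (U : ℕ → Fin q)
    (H1 : ∀ s d, 0 < d → s + 2 * d ≤ n → ¬ ∀ k < d, U (s + k) = U (s + k + d))
    (H2 : ∀ s, s + 2 < n → U s ≠ U (s + 2)) : (q : ℝ) ∈ Ratios (pathGraph n) := by
  refine ⟨1, q, le_rfl, hq, ⟨fun v => {U v.val}, fun v => by simp, ?_⟩, by simp⟩
  intro l hl w hw hb col hc h
  obtain ⟨m, rfl⟩ : ∃ m, l = m + 1 := ⟨l - 1, by omega⟩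
  simp only [pathGraph_adj] at hw
  simp only [Finset.mem_singleton] at hc
  have := core n U H1 H2 m (fun i => (w i).val) (fun i => (w (m + 1 + i)).val)
    (fun i => (w i).isLt) (fun i => (w _).isLt) (fun i hi => hw i (by omega))
    (fun i hi => hw (m + 1 + i) (by omega)) (hw m (by omega))
    (fun i hi => by rw [← hc i (by omega), ← hc (m + 1 + i) (by omega)]; exact h i (by omega))
  exact hb fun i hi => Fin.ext (this i (by omega))

section Lower
variable {n p q : ℕ} {c : Fin n → Finset (Fin q)}

lemma disj (hp : 1 ≤ p) (hc : ∀ v, (c v).card = p) (h : WalkNonrep (pathGraph n) c)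
    (x y : Fin n) (hxy : x.val + 1 = y.val ∨ x.val + 2 = y.val) : Disjoint (c x) (c y) := by
  rw [Finset.disjoint_left]
  intro t h1 h2
  rcases hxy with e | e
  · refine h 1 le_rfl (fun i => if i = 0 then x else y) ?_ ?_ (fun _ => t) ?_ (fun _ _ => rfl)
    · intro i hi
      obtain rfl : i = 0 := by omega
      simp [pathGraph_adj, e]
    · intro h'
      have := congrArg Fin.val (h' 0 one_pos)
      simp at this; omega
    · intro i _
      split_ifs <;> assumption
  · let z : Fin n := ⟨x.val + 1, by omega⟩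
    obtain ⟨s, hs⟩ : (c z).Nonempty := Finset.card_pos.1 (by rw [hc]; omega)
    refine h 2 (by omega) (fun i => if i = 0 then x else if i = 2 then y else z) ?_ ?_
      (fun i => if i % 2 = 0 then t else s) ?_ ?_
    · intro i hi
      have : i = 0 ∨ i = 1 ∨ i = 2 := by omega
      rcases this with rfl | rfl | rfl <;> simp [pathGraph_adj, z] <;> omega
    · intro h'
      have := congrArg Fin.val (h' 0 (by omega))
      simp at this; omega
    · intro i hi
      have : i = 0 ∨ i = 1 ∨ i = 2 ∨ i = 3 := by omega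
      rcases this with rfl | rfl | rfl | rfl <;> simpa
    · intro i hi
      have : i = 0 ∨ i = 1 := by omega
      rcases this with rfl | rfl <;> rfl

lemma count (hc : ∀ v, (c v).card = p) (T : Finset (Fin n))
    (hT : ∀ x ∈ T, ∀ y ∈ T, x < y → Disjoint (c x) (c y)) : T.card * p ≤ q := by
  have h1 := Finset.card_biUnion (s := T) (t := c) (fun x hx y hy hne => by
    rcases lt_or_gt_of_ne hne with h | h
    · exact hT x hx y hy h
    · exact (hT y hy x hx h).symm)
  have h2 := Finset.card_le_univ (T.biUnion c)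
  simpa [h1, hc] using h2

lemma window (hp : 1 ≤ p) (hc : ∀ v, (c v).card = p) (h : WalkNonrep (pathGraph n) c)
    (s r : ℕ) (hr : r ≤ 3) (hs : s + r < n)
    (h3 : r = 3 → Disjoint (c ⟨s, by omega⟩) (c ⟨s + r, hs⟩)) : (r + 1) * p ≤ q := by
  have := count hc (Finset.Icc (⟨s, by omega⟩ : Fin n) ⟨s + r, hs⟩) (fun x hx y hy hxy => by
    simp only [Finset.mem_Icc, Fin.le_def] at hx hy
    rw [Fin.lt_def] at hxy
    by_cases h4 : x.val + 1 = y.val ∨ x.val + 2 = y.val
    · exact disj hp hc h x y h4
    · have e1 : x = ⟨s, by omega⟩ := Fin.ext (by simp only; omega)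
      have e2 : y = ⟨s + r, hs⟩ := Fin.ext (by simp only; omega)
      have := h3 (by omega)
      rwa [← e1, ← e2] at this)
  rw [Fin.card_Icc] at this
  simp only at this
  rwa [show s + r + 1 - s = r + 1 by omega] at this

lemma four (hn : 6 ≤ n) (hp : 1 ≤ p) (hc : ∀ v, (c v).card = p)
    (h : WalkNonrep (pathGraph n) c) : 4 * p ≤ q := by
  by_contra hlt
  have key : ∀ s : ℕ, ∀ hs : s < 3, ∃ t, t ∈ c ⟨s, by omega⟩ ∧ t ∈ c ⟨s + 3, by omega⟩ := by
    intro s hs
    by_contra hne
    refine hlt (window hp hc h s 3 le_rfl (by omega) fun _ => ?_)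
    rw [Finset.disjoint_left]
    exact fun t h1 h2 => hne ⟨t, h1, h2⟩
  choose t ht using key
  refine h 3 (by omega) (fun i => ⟨i % 6, by omega⟩) ?_ ?_
    (fun i => t (i % 3) (by omega)) ?_ ?_
  · intro i hi
    simp only [pathGraph_adj]; omega
  · intro h'
    have := congrArg Fin.val (h' 0 (by omega))
    simp at this
  · intro i hi
    have : i = 0 ∨ i = 1 ∨ i = 2 ∨ i = 3 ∨ i = 4 ∨ i = 5 := by omega
    rcases this with rfl | rfl | rfl | rfl | rfl | rfl
    exacts [(ht 0 _).1, (ht 1 _).1, (ht 2 _).1, (ht 0 _).2, (ht 1 _).2, (ht 2 _).2]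
  · intro i hi
    have : i = 0 ∨ i = 1 ∨ i = 2 := by omega
    rcases this with rfl | rfl | rfl <;> rfl

end Lower

lemma le_ratio (k p q : ℕ) (hp : 1 ≤ p) (h : k * p ≤ q) : (k : ℝ) ≤ (q : ℝ) / p := by
  rw [le_div_iff₀ (by exact_mod_cast hp)]
  exact_mod_cast h

theorem result : piF (pathGraph 5) = 3 ∧ ∀ n : ℕ, 6 ≤ n → piF (pathGraph n) = 4 := by
  constructor
  · refine IsLeast.csInf_eq ⟨?_, ?_⟩
    · have := upper 5 3 (by omega) (fun i => ⟨i % 3, by omega⟩) (fun s d hd hs h => by
        have := congrArg Fin.val (h 0 hd)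
        simp only at this; omega) (fun s hs h => by
        have := congrArg Fin.val h
        simp only at this; omega)
      exact_mod_cast this
    · rintro _ ⟨p, q, hp, -, ⟨c, hc, h⟩, rfl⟩
      exact_mod_cast le_ratio 3 p q hp (window hp hc h 0 2 (by omega) (by omega) (by omega))
  · intro n hn
    refine IsLeast.csInf_eq ⟨?_, ?_⟩
    · exact_mod_cast upper n 4 (by omega) uu (fun s d hd _ => uu_sq s d hd) (fun s _ => uu_two s)
    · rintro _ ⟨p, q, hp, -, ⟨c, hc, h⟩, rfl⟩
      exact_mod_cast le_ratio 4 p q hp (four hn hp hc h)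

end Pool.Agent.Results.MP_c566a2_co.Paths
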